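import Pool.Agent.Lib.MP_2d208d_co.H89.Leaf

set_option autoImplicit false

namespace Pool.Agent.Results.MP_2d208d_co.FewCycles

open Pool.Agent.Lib.MP_2d208d_co.H89

/-- In a connected graph with `n` vertices and `m` edges every weak dominating set `D` gives an
independent dominating set `I` with `3 |I| ≤ 3 |D| + max 0 (m - n)`. -/
theorem result (V : Type) [Fintype V] [DecidableEq V] (G : SimpleGraph V) [DecidableRel G.Adj]
    (hG : G.Connected) (D : Finset V)
    (hD : ∀ v, v ∉ D → ∃ u ∈ D, G.Adj u v ∧ G.degree u ≤ G.degree v) :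
    ∃ I : Finset V, (∀ u ∈ I, ∀ v ∈ I, ¬ G.Adj u v) ∧ (∀ v, v ∉ I → ∃ u ∈ I, G.Adj u v) ∧
      (3 * I.card : ℤ) ≤ 3 * D.card + max 0 ((G.edgeFinset.card : ℤ) - Fintype.card V) := by
  have hdg : ∀ v, dg G Finset.univ v = G.degree v := fun v => by
    unfold dg
    rw [← SimpleGraph.card_neighborFinset_eq_degree, SimpleGraph.neighborFinset_eq_filter]
  have hc : Cut G Finset.univ := by
    intro T _ hne hT
    obtain ⟨a, ha⟩ := hne
    obtain ⟨b, hb⟩ : ∃ b, b ∉ T := by
      by_contra h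
      push Not at h
      exact hT (Finset.eq_univ_of_forall h)
    obtain ⟨w⟩ := hG.preconnected a b
    obtain ⟨d, -, h1, h2⟩ := w.exists_boundary_dart (T : Set V) ha hb
    exact ⟨d.fst, h1, d.snd, Finset.mem_univ _, h2, d.adj⟩
  obtain ⟨I, -, h1, h2, h3⟩ := marked G Finset.univ D (Finset.univ \ D) ∅ hc
    (Finset.subset_univ _) (Finset.subset_univ _)
    (fun v hv => by simpa only [hdg] using hD v (Finset.mem_sdiff.1 hv).2)
    (fun v _ hv _ => by
      obtain ⟨u, hu, ha, -⟩ := hD v hv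
      exact ⟨u, hu, ha⟩)
  refine ⟨I, h1, fun v hv => h2 v ?_ hv, ?_⟩
  · by_cases h : v ∈ D
    · exact Or.inl h
    · exact Or.inr (Finset.mem_sdiff.2 ⟨Finset.mem_univ _, h⟩)
  · simp only [hdg, Finset.sdiff_empty, Finset.card_univ] at h3
    rw [SimpleGraph.sum_degrees_eq_twice_card_edges] at h3
    omega

end Pool.Agent.Results.MP_2d208d_co.FewCycles
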