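import Pool.Agent.Lib.MP_2d208d_co.Leaves

/-! Independent domination is at most the size of a dominating set with the leaves plus the
cyclomatic number. -/

open Finset

namespace Pool.Agent.Results.MP_2d208d_co.LeavesAndCycles

open Pool.Agent.Lib.MP_2d208d_co.Leaves

theorem result {V : Type} [Fintype V] [DecidableEq V] (G : SimpleGraph V) [DecidableRel G.Adj]
    (hG : G.Connected) (hV : 2 ≤ Fintype.card V) (y : V) (D : Finset V)
    (hD : ∀ v, v ∉ D → v ≠ y → 2 ≤ G.degree v ∧ ∃ u ∈ D, G.Adj v u) :
    ∃ I : Finset V, G.IsIndepSet (I : Set V) ∧ (∀ v, v ∉ I → ∃ u ∈ I, G.Adj v u) ∧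
      I.card + Fintype.card V ≤ D.card + G.edgeFinset.card + 1 := by
  have hdg : ∀ v, dg G univ v = G.degree v := fun v => by
    unfold dg
    rw [← G.card_neighborFinset_eq_degree, G.neighborFinset_eq_filter]
  obtain ⟨I, -, h1, h2, h3⟩ := main G (Fintype.card V) univ D {y} le_rfl (subset_univ _)
    (subset_univ _)
    (by
      rintro S - ⟨a, ha⟩ hcl
      refine ⟨y, ?_, mem_singleton_self _⟩
      obtain ⟨w⟩ := hG a y
      induction w with
      | nil => exact ha
      | cons h _ ih => exact ih hD (hcl _ ha _ (mem_univ _) h))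
    (fun v _ hv hy => by rw [hdg]; exact hD v hv fun e => hy (mem_singleton.2 e))
    (fun v _ _ => by
      rw [hdg]
      have : Nontrivial V := Fintype.one_lt_card_iff_nontrivial.1 hV
      exact hG.preconnected.degree_pos_of_nontrivial v)
  refine ⟨I, fun a ha b hb _ => h1 a ha b hb, fun v hv => h2 v (mem_univ _) hv, ?_⟩
  simp only [hdg] at h3
  rw [G.sum_degrees_eq_twice_card_edges, card_singleton, card_univ] at h3
  omega

end Pool.Agent.Results.MP_2d208d_co.LeavesAndCycles
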