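import Pool.Agent.Lib.MP_2d208d_co.Ptol

set_option autoImplicit false

theorem Pool.Agent.Results.MP_2d208d_co.Ptolemaic.result {n : ℕ} (G : SimpleGraph (Fin n))
    [DecidableRel G.Adj]
    (hchordal : ∀ m, 4 ≤ m → IsEmpty (SimpleGraph.cycleGraph m ↪g G))
    (hgem : ¬ ∃ a b c d e, G.Adj a b ∧ G.Adj b c ∧ G.Adj c d ∧ ¬ G.Adj a c ∧ ¬ G.Adj b d ∧
      ¬ G.Adj a d ∧ G.Adj e a ∧ G.Adj e b ∧ G.Adj e c ∧ G.Adj e d)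
    (D : Finset (Fin n))
    (hD : ∀ v, v ∉ D → ∃ u ∈ D, G.Adj u v ∧
      (G.degree u ≤ G.degree v ∨ ∃ w, G.Adj v w ∧ w ≠ u ∧ ¬ G.Adj u w)) :
    ∃ I : Finset (Fin n), G.IsIndepSet (I : Set (Fin n)) ∧ (∀ v, v ∉ I → ∃ u ∈ I, G.Adj u v) ∧
      I.card ≤ D.card := by
  obtain ⟨ρ, hp⟩ := Pool.Agent.Lib.MP_1d5e93_al.exists_peo (G := G) hchordal
  have h : ∀ v, ∃ u, v ∉ D → u ∈ D ∧ G.Adj u v ∧
      ((∀ y, G.Adj u y → y ≠ v → G.Adj v y) ∨ ∃ w, G.Adj v w ∧ w ≠ u ∧ ¬ G.Adj u w) := by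
    intro v
    by_cases hv : v ∈ D
    · exact ⟨v, fun h => absurd hv h⟩
    · obtain ⟨u, hu, h1, h2⟩ := hD v hv
      refine ⟨u, fun _ => ⟨hu, h1, ?_⟩⟩
      rcases h2 with h2 | h2
      · exact Pool.Agent.Lib.MP_2d208d_co.Ptol.twin h1 h2
      · exact Or.inr h2
  choose p hp' using h
  exact Pool.Agent.Lib.MP_2d208d_co.Ptol.core hp hgem D p hp'
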